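import Mathlib
import Pool.Agent.Helper9.SS.Defs

/-!
# Towers of base changes of rational elliptic surfaces

`O` is an algebraic closure of the field with `p` elements. The field with `Q` elements is the set of
all `c : O` with `c ^ Q = c`.
-/

set_option autoImplicit false

namespace Pool.Agent.Helper73.TB

open IntermediateField Polynomial
open Pool.Agent.Helper9.SS
open Pool.Agent.Helper73.CHA (IsModelL)

/-- The number of the solutions `(x, y)` of `y ^ 2 = x ^ 3 + a * x + b` in the field with `Q`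
elements. -/
noncomputable def curveCount {O : Type} [Field O] (Q : ℕ) (a b : O) : ℕ :=
  Nat.card {z : O × O // z.1 ^ Q = z.1 ∧ z.2 ^ Q = z.2 ∧ z.2 ^ 2 = z.1 ^ 3 + a * z.1 + b}

/-- The number of the solutions `(x, y, w)`, `w ≠ 0`, of `y ^ 2 = x ^ 3 + A(w) * x + B(w)` in the
field with `Q` elements. -/
noncomputable def surfCount {O : Type} [Field O] (Q : ℕ) (A B : O[X]) : ℕ :=
  Nat.card {z : O × O × O // z.1 ^ Q = z.1 ∧ z.2.1 ^ Q = z.2.1 ∧ z.2.2 ^ Q = z.2.2 ∧ z.2.2 ≠ 0 ∧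
    z.2.1 ^ 2 = z.1 ^ 3 + A.eval z.2.2 * z.1 + B.eval z.2.2}

/-- The number of the solutions `(x, y, w)` of `y ^ 2 = x ^ 3 + A(w) * x + B(w)` in the field with `Q`
elements, such that `w ^ ((Q - 1) / n) = ζ ^ a`. -/
noncomputable def classCount {O : Type} [Field O] (Q n : ℕ) (ζ : O) (a : ℕ) (A B : O[X]) : ℕ :=
  Nat.card {z : O × O × O // z.1 ^ Q = z.1 ∧ z.2.1 ^ Q = z.2.1 ∧ z.2.2 ^ Q = z.2.2 ∧
    z.2.2 ^ ((Q - 1) / n) = ζ ^ a ∧ z.2.1 ^ 2 = z.1 ^ 3 + A.eval z.2.2 * z.1 + B.eval z.2.2}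

/-- `A` and `B` have coefficients in the field with `q` elements. -/
def IsOver {O : Type} [Field O] (q : ℕ) (A B : O[X]) : Prop :=
  (∀ i, A.coeff i ^ q = A.coeff i) ∧ ∀ i, B.coeff i ^ q = B.coeff i

/-- The trace formulas. -/
structure Towers (p : ℕ) (O L : Type) [Field O] [Field L] extends Motives p O L where
  /-- Hasse's theorem for the curve `y ^ 2 = x ^ 3 + a * x + b` over the field with `q = p ^ e`
  elements; if it is singular then it has `q ^ N - s ^ N` points, `s = 0, 1, -1`. -/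
  hasse : ∀ (e : ℕ) (a b : O), 0 < e → a ^ p ^ e = a → b ^ p ^ e = b → ∃ s t : L,
    (∀ N : ℕ, 0 < N → (curveCount ((p ^ e) ^ N) a b : L) = ((p : L) ^ e) ^ N - s ^ N - t ^ N) ∧
    (4 * a ^ 3 + 27 * b ^ 2 ≠ 0 → s * t = (p : L) ^ e) ∧
    (4 * a ^ 3 + 27 * b ^ 2 = 0 → t = 0 ∧ s ^ 3 = s)
  /-- The zeta function of the rational elliptic surface `y ^ 2 = x ^ 3 + A(w) * x + B(w)`: the matrix
  `g` of Frobenius on the Mordell-Weil lattice has finite order `m`, which is the order of an element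
  of the Weyl group of `E_8` and so no multiple of `16`. -/
  shioda : ∀ (e : ℕ) (A B : O[X]), 0 < e → IsRational A B → IsOver (p ^ e) A B →
    ∃ (d m : ℕ) (g : Matrix (Fin d) (Fin d) ℤ), 0 < m ∧ ¬ 16 ∣ m ∧ g ^ m = 1 ∧
      ∀ N : ℕ, 0 < N → (surfCount ((p ^ e) ^ N) A B : ℤ) =
        (((p : ℤ) ^ e) ^ N) ^ 2 + ((p : ℤ) ^ e) ^ N * ((g ^ N).trace - 1) +
        (((p : ℤ) ^ e) ^ N - curveCount ((p ^ e) ^ N) (A.coeff 0) (B.coeff 0)) +
        (((p : ℤ) ^ e) ^ N - curveCount ((p ^ e) ^ N) (A.coeff 4) (B.coeff 6))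
  /-- Grothendieck's trace formula for the surface `y ^ 2 = x ^ 3 + A(w ^ n) * x + B(w ^ n)`, `n` prime
  to `6`, over the field with `Q = p ^ e` elements, `Q = 1` modulo `n`, and the eigenspace of
  `s : w ↦ ζ w` for `c ≠ 1`: it is a quotient of the cohomology `V` of the line with coefficients in the
  twisted sheaf. -/
  trace : ∀ {K : Type} [Field K] [Algebra O K] (n e : ℕ) (A B : O[X]) (x y w : K) (ζ : O)
    (s φ : K →ₐ[O] K) (c : L), Nat.Coprime n 6 → 0 < e → n ∣ p ^ e - 1 → IsRational A B →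
    IsOver (p ^ e) A B → IsModelL O (X ^ n) A B x y w → IsPrimitiveRoot ζ n →
    s x = x → s y = y → s w = algebraMap O K ζ * w →
    φ x = x ^ p ^ e → φ y = y ^ p ^ e → φ w = w ^ p ^ e → c ^ n = 1 → c ≠ 1 →
    ∃ (V : Type) (_ : AddCommGroup V) (_ : Module L V) (F : Module.End L V) (r : V →ₗ[L] H K),
      FiniteDimensional L V ∧ Module.finrank L V ≤ 12 ∧ (∀ v, r (F v) = map φ (r v)) ∧
      (∀ z, map s z = c • z ↔ z ∈ LinearMap.range r) ∧
      ∀ N : ℕ, 0 < N → LinearMap.trace L V (F ^ N) =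
        ∑ a ∈ Finset.range n, c ^ a * (classCount ((p ^ e) ^ N) n ζ a A B : L)

end Pool.Agent.Helper73.TB
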